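import Mathlib

namespace Pool.Agent.H.MP_29e051_nt
open Finset

lemma count_le (a Q d U : ℕ) (h : Nat.Coprime a Q) (hd : 0 < d) :
    #{u ∈ range U | d ∣ a + Q * u} ≤ U / d + 1 := by
  rw [← card_range (U / d + 1)]
  refine card_le_card_of_injOn (fun u => u / d) (fun u hu => ?_) (fun u hu v hv e => ?_)
  · simp only [coe_filter, mem_range, Set.mem_ofPred_eq] at hu
    simp only [coe_range, Set.mem_Iio]
    exact Nat.lt_succ_of_le (Nat.div_le_div_right hu.1.le)
  · simp only [coe_filter, mem_range, Set.mem_ofPred_eq] at hu hv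
    have hc : Nat.Coprime d Q := by
      have h1 : Nat.gcd d Q ∣ a :=
        (Nat.dvd_add_left ((Nat.gcd_dvd_right d Q).mul_right u)).1
          ((Nat.gcd_dvd_left d Q).trans hu.2)
      exact Nat.eq_one_of_dvd_coprimes h h1 (Nat.gcd_dvd_right d Q)
    have h2 : a + Q * u ≡ a + Q * v [MOD d] :=
      ((Nat.modEq_zero_iff_dvd).2 hu.2).trans ((Nat.modEq_zero_iff_dvd).2 hv.2).symm
    have h3 : u ≡ v [MOD d] := Nat.ModEq.cancel_left_of_coprime hc (Nat.ModEq.add_left_cancel' a h2)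
    have h4 := Nat.div_add_mod u d
    have h5 := Nat.div_add_mod v d
    simp only at e
    unfold Nat.ModEq at h3
    rw [e, h3] at h4
    omega

lemma tau_le (x D : ℕ) (hx : x ≤ D ^ 2) : #x.divisors ≤ 2 * #{d ∈ Icc 1 D | d ∣ x} := by
  have h1 : x.divisors ⊆ {d ∈ Icc 1 D | d ∣ x} ∪ image (fun d => x / d) {d ∈ Icc 1 D | d ∣ x} := by
    intro d hd
    obtain ⟨⟨e, he⟩, hx0⟩ := Nat.mem_divisors.1 hd
    have hd0 : 0 < d := Nat.pos_of_mem_divisors hd
    have he0 : 0 < e := by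
      rcases Nat.eq_zero_or_pos e with h | h
      · simp [h] at he; exact absurd he hx0
      · exact h
    simp only [mem_union, mem_filter, mem_Icc, mem_image]
    by_cases h : d ≤ D
    · exact Or.inl ⟨⟨hd0, h⟩, ⟨e, he⟩⟩
    · refine Or.inr ⟨e, ⟨⟨he0, ?_⟩, ⟨d, by rw [he, mul_comm]⟩⟩, ?_⟩
      · by_contra h2
        nlinarith
      · rw [he, Nat.mul_div_cancel _ he0]
  have h2 := card_le_card h1
  have h3 := card_union_le {d ∈ Icc 1 D | d ∣ x} (image (fun d => x / d) {d ∈ Icc 1 D | d ∣ x})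
  have h4 := card_image_le (s := {d ∈ Icc 1 D | d ∣ x}) (f := fun d => x / d)
  omega

lemma avg_tau (a Q D : ℕ) (h : Nat.Coprime a Q) (hb : a + Q * D ≤ D ^ 2) :
    ∑ u ∈ range D, (#(a + Q * u).divisors : ℝ) ≤ D * (2 * (2 + Real.log D)) := by
  have h1 : ∑ u ∈ range D, #(a + Q * u).divisors ≤ 2 * ∑ d ∈ Icc 1 D, (D / d + 1) := by
    calc _ ≤ ∑ u ∈ range D, 2 * #{d ∈ Icc 1 D | d ∣ a + Q * u} := by
          refine sum_le_sum fun u hu => tau_le _ _ ?_
          have : Q * u ≤ Q * D := Nat.mul_le_mul_left _ (mem_range.1 hu).le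
          omega
      _ = 2 * ∑ d ∈ Icc 1 D, #{u ∈ range D | d ∣ a + Q * u} := by
          rw [← mul_sum]
          congr 1
          simp only [card_filter]
          exact sum_comm
      _ ≤ _ := by
          gcongr with d hd
          exact count_le a Q d D h (mem_Icc.1 hd).1
  have h2 : ((∑ d ∈ Icc 1 D, (D / d + 1) : ℕ) : ℝ) ≤ D * (2 + Real.log D) := by
    have h3 := harmonic_le_one_add_log D
    rw [harmonic_eq_sum_Icc] at h3
    push_cast at h3 ⊢
    rw [sum_add_distrib]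
    have h4 : ∑ d ∈ Icc 1 D, ((D / d : ℕ) : ℝ) ≤ D * ∑ d ∈ Icc 1 D, ((d : ℝ))⁻¹ := by
      rw [mul_sum]
      exact sum_le_sum fun d _ => by rw [← div_eq_mul_inv]; exact Nat.cast_div_le
    have h5 : (0 : ℝ) ≤ D := Nat.cast_nonneg _
    simp only [sum_const, Nat.card_Icc, add_tsub_cancel_right, nsmul_eq_mul, mul_one]
    nlinarith
  have h6 : ((∑ u ∈ range D, #(a + Q * u).divisors : ℕ) : ℝ) ≤
      ((2 * ∑ d ∈ Icc 1 D, (D / d + 1) : ℕ) : ℝ) := by exact_mod_cast h1
  rw [Nat.cast_mul] at h6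
  push_cast at h6 h2 ⊢
  linarith

lemma geom_le (k t T : ℕ) (hk : 2 ≤ k) : ∑ j ∈ Ioc t T, 1 / (k : ℝ) ^ j ≤ 1 / (k : ℝ) ^ t := by
  have hk' : (2 : ℝ) ≤ k := by exact_mod_cast hk
  have : ∀ i, ∑ j ∈ Ioc t (t + i), 1 / (k : ℝ) ^ j ≤ 1 / (k : ℝ) ^ t - 1 / (k : ℝ) ^ (t + i) := by
    intro i
    induction i with
    | zero => simp
    | succ i ih =>
      rw [← add_assoc, sum_Ioc_succ_top (by omega)]
      have hp : (0 : ℝ) < (k : ℝ) ^ (t + i) := by positivity
      have : 2 * (1 / (k : ℝ) ^ (t + i + 1)) ≤ 1 / (k : ℝ) ^ (t + i) := by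
        rw [pow_succ, mul_one_div, div_le_div_iff₀ (by positivity) hp]
        nlinarith
      linarith
  rcases le_total t T with h | h
  · obtain ⟨i, rfl⟩ := Nat.exists_eq_add_of_le h
    have h2 : (0 : ℝ) ≤ 1 / (k : ℝ) ^ (t + i) := by positivity
    linarith [this i]
  · rw [Ioc_eq_empty (by omega), sum_empty]; positivity

lemma core (k n t T D : ℕ) (hk : 2 ≤ k) (ht : 1 ≤ t) (htT : t ≤ T) (hD : 0 < D)
    (hb : n + (2 ^ (t * t) * T) ^ (k * (t * t)) * (D + 2) + T ≤ D ^ 2) :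
    ∃ m, n ≤ m ∧ m ≤ n + (2 ^ (t * t) * T) ^ (k * (t * t)) * (D + 2) ∧
      (∀ j ∈ Icc 1 t, k ^ t ∣ #(m + j).divisors) ∧
      ∑ j ∈ Ioc t T, (#(m + j).divisors : ℝ) / (k : ℝ) ^ j ≤
        2 * (2 + Real.log D) / (k : ℝ) ^ t := by
  have hT0 : 0 < T := by omega
  have hP : ∀ i : ℕ, ∃ p, p.Prime ∧ 2 ^ i * T < p ∧ p ≤ 2 * (2 ^ i * T) := fun i =>
    Nat.exists_prime_lt_and_le_two_mul _ (by positivity)
  choose P hp h1 h2 using hP
  have hmono : StrictMono P := strictMono_nat_of_lt_succ fun i => by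
    have := h1 (i + 1)
    have := h2 i
    rw [pow_succ] at *
    nlinarith
  have hT : ∀ i, T < P i := fun i => by
    have := h1 i
    have : 1 ≤ 2 ^ i := Nat.one_le_two_pow
    nlinarith
  obtain ⟨r, hr⟩ := Nat.chineseRemainderOfFinset
    (fun i => P i ^ (k - 1) + (P i ^ k - 1) * (i / t + 1)) (fun i => P i ^ k) (range (t * t))
    (fun i _ => pow_ne_zero _ (hp i).ne_zero) (fun i _ j _ hij =>
      Nat.Coprime.pow _ _ ((Nat.coprime_primes (hp i) (hp j)).2 (hmono.injective.ne hij)))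
  set Q := ∏ i ∈ range (t * t), P i ^ k with hQ
  have hQ0 : 0 < Q := prod_pos fun i _ => pow_pos (hp i).pos _
  have hQb : Q ≤ (2 ^ (t * t) * T) ^ (k * (t * t)) := by
    rw [pow_mul, ← card_range (t * t), card_range, ← card_range (t * t)]
    refine prod_le_pow_card _ _ _ fun i hi => ?_
    rw [card_range]
    refine Nat.pow_le_pow_left ((h2 i).trans ?_) _
    rw [← mul_assoc, ← pow_succ']
    exact Nat.mul_le_mul_right _ (Nat.pow_le_pow_right (by norm_num) (mem_range.1 hi))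
  set b := r % Q + Q * (n / Q + 1) with hbd
  have hb1 : n ≤ b := by
    have := Nat.div_add_mod n Q
    have := Nat.mod_lt n hQ0
    nlinarith [Nat.zero_le (r % Q)]
  have hb2 : b ≤ n + Q * 2 := by
    have := Nat.div_add_mod n Q
    have := Nat.mod_lt r hQ0
    nlinarith [Nat.zero_le (n % Q)]
  have key : ∀ u, ∀ i ∈ range (t * t), b + Q * u + (i / t + 1) ≡ P i ^ (k - 1) [MOD P i ^ k] := by
    intro u i hi
    have hd : P i ^ k ∣ Q := dvd_prod_of_mem _ hi
    have e1 : b + Q * u ≡ r [MOD Q] := by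
      rw [hbd, add_assoc, ← mul_add]
      simp [Nat.ModEq]
    have e2 := ((e1.of_dvd hd).trans (hr i hi)).add_right (i / t + 1)
    refine e2.trans ?_
    obtain ⟨c, hc⟩ : ∃ c, P i ^ k = c + 1 := Nat.exists_eq_succ_of_ne_zero
      (pow_ne_zero _ (hp i).ne_zero)
    have : P i ^ (k - 1) + (P i ^ k - 1) * (i / t + 1) + (i / t + 1) =
        P i ^ (k - 1) + P i ^ k * (i / t + 1) := by
      rw [hc]; simp; ring
    rw [this]
    simp [Nat.ModEq]
  have hk1 : k - 1 + 1 = k := by omega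
  have kdvd : ∀ u, ∀ i ∈ range (t * t), P i ^ (k - 1) ∣ b + Q * u + (i / t + 1) := fun u i hi =>
    ((key u i hi).dvd_iff (pow_dvd_pow _ (by omega))).2 dvd_rfl
  have hfac : ∀ u, ∀ i ∈ range (t * t), (b + Q * u + (i / t + 1)).factorization (P i) = k - 1 := by
    intro u i hi
    have hne : b + Q * u + (i / t + 1) ≠ 0 := Nat.succ_ne_zero _
    refine le_antisymm ?_ (((hp i).pow_dvd_iff_le_factorization hne).1 (kdvd u i hi))
    by_contra hlt
    have h3 : P i ^ k ∣ b + Q * u + (i / t + 1) :=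
      ((hp i).pow_dvd_iff_le_factorization hne).2 (by omega)
    have h4 := Nat.le_of_dvd (pow_pos (hp i).pos _) (((key u i hi).dvd_iff dvd_rfl).1 h3)
    have := Nat.pow_lt_pow_right (hp i).one_lt (show k - 1 < k by omega)
    omega
  have hdiv : ∀ u, ∀ j ∈ Icc 1 t, k ^ t ∣ #(b + Q * u + j).divisors := by
    intro u j hj
    obtain ⟨hj1, hj2⟩ := mem_Icc.1 hj
    obtain ⟨j, rfl⟩ : ∃ i, j = i + 1 := ⟨j - 1, by omega⟩
    have hne : b + Q * u + (j + 1) ≠ 0 := by omega
    have hi : ∀ x ∈ range t, t * j + x ∈ range (t * t) ∧ (t * j + x) / t = j := fun x hx => by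
      have hx' := mem_range.1 hx
      refine ⟨mem_range.2 (by nlinarith), ?_⟩
      rw [Nat.mul_add_div (by omega), Nat.div_eq_of_lt hx', add_zero]
    have hf : ∀ x ∈ range t, (b + Q * u + (j + 1)).factorization (P (t * j + x)) = k - 1 :=
      fun x hx => by
        have := hfac u _ (hi x hx).1
        rwa [(hi x hx).2] at this
    rw [Nat.card_divisors hne]
    have hsub : image (fun x => P (t * j + x)) (range t) ⊆ (b + Q * u + (j + 1)).primeFactors := by
      intro p hp'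
      obtain ⟨x, hx, rfl⟩ := mem_image.1 hp'
      rw [← Nat.support_factorization, Finsupp.mem_support_iff, hf x hx]
      omega
    refine Dvd.dvd.trans ?_ (prod_dvd_prod_of_subset _ _ _ hsub)
    rw [prod_image fun x _ y _ e => by simpa using hmono.injective e,
      prod_congr rfl fun x hx => by rw [hf x hx, hk1]]
    simp
  have hcop : ∀ j ∈ Ioc t T, Nat.Coprime (b + j) Q := by
    intro j hj
    obtain ⟨hj1, hj2⟩ := mem_Ioc.1 hj
    refine Nat.Coprime.prod_right fun i hi => Nat.Coprime.pow_right _ ?_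
    refine ((hp i).coprime_iff_not_dvd.2 fun hd => ?_).symm
    have h3 : P i ∣ b + (i / t + 1) := by
      simpa using (dvd_pow_self _ (by omega)).trans (kdvd 0 i hi)
    have h4 : i / t < t := Nat.div_lt_of_lt_mul (mem_range.1 hi)
    generalize i / t = x at h3 h4
    have h5 := Nat.dvd_sub hd h3
    have h6 := Nat.le_of_dvd (by omega) h5
    have := hT i
    omega
  have hQD : Q * (D + 2) ≤ (2 ^ (t * t) * T) ^ (k * (t * t)) * (D + 2) := Nat.mul_le_mul_right _ hQb
  have hL : 0 ≤ 2 * (2 + Real.log D) := by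
    have := Real.log_natCast_nonneg D
    linarith
  have hsum : ∑ u ∈ range D, ∑ j ∈ Ioc t T, (#(b + Q * u + j).divisors : ℝ) / (k : ℝ) ^ j ≤
      ∑ _u ∈ range D, 2 * (2 + Real.log D) / (k : ℝ) ^ t := by
    rw [sum_comm, sum_const, card_range, nsmul_eq_mul]
    calc _ ≤ ∑ j ∈ Ioc t T, (D * (2 * (2 + Real.log D))) * (1 / (k : ℝ) ^ j) := by
          refine sum_le_sum fun j hj => ?_
          rw [← sum_div, mul_one_div]
          gcongr
          have := avg_tau (b + j) Q D (hcop j hj) (by have := (mem_Ioc.1 hj).2; nlinarith)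
          simpa only [add_right_comm b j] using this
      _ ≤ (D * (2 * (2 + Real.log D))) * (1 / (k : ℝ) ^ t) := by
          rw [← mul_sum]
          gcongr
          exact geom_le k t T hk
      _ = _ := by ring
  obtain ⟨u, hu, hle⟩ := exists_le_of_sum_le (nonempty_range_iff.2 hD.ne') hsum
  have : Q * u ≤ Q * D := Nat.mul_le_mul_left _ (mem_range.1 hu).le
  exact ⟨b + Q * u, by omega, by nlinarith, hdiv u, hle⟩

end Pool.Agent.H.MP_29e051_nt
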