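import Pool.Agent.H.MP_29e051_nt.Core

namespace Pool.Agent.H.MP_29e051_nt
open Finset

lemma lambert (k : ℕ) (hk : 2 ≤ k) :
    ∑' n : ℕ, 1 / ((k : ℝ) ^ (n + 1) - 1) = ∑' n : ℕ, (#(n + 1).divisors : ℝ) / (k : ℝ) ^ (n + 1) := by
  have hk' : (2 : ℝ) ≤ k := by exact_mod_cast hk
  have hr : ‖(k : ℝ)⁻¹‖ < 1 := by
    rw [norm_inv, Real.norm_natCast]
    exact inv_lt_one_of_one_lt₀ (by linarith)
  have h := tsum_pow_div_one_sub_eq_tsum_sigma hr 0
  rw [tsum_pnat_eq_tsum_succ (f := fun n : ℕ => (n : ℝ) ^ 0 * (k : ℝ)⁻¹ ^ n / (1 - (k : ℝ)⁻¹ ^ n)),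
    tsum_pnat_eq_tsum_succ (f := fun n : ℕ => (ArithmeticFunction.sigma 0 n : ℝ) * (k : ℝ)⁻¹ ^ n)] at h
  refine (tsum_congr fun n => ?_).trans (h.trans (tsum_congr fun n => ?_))
  · have h1 : (1 : ℝ) < (k : ℝ) ^ (n + 1) := one_lt_pow₀ (by linarith) (by omega)
    have h2 : (k : ℝ) ^ (n + 1) - 1 ≠ 0 := by linarith
    rw [inv_pow]
    field_simp
  · rw [ArithmeticFunction.sigma_zero_apply, inv_pow, div_eq_mul_inv]

lemma far (k a : ℕ) (hk : 2 ≤ k) :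
    Summable (fun i : ℕ => (#(a + i + 1).divisors : ℝ) / (k : ℝ) ^ (i + 1)) ∧
    ∑' i : ℕ, (#(a + i + 1).divisors : ℝ) / (k : ℝ) ^ (i + 1) ≤ a + 2 := by
  have hk' : (2 : ℝ) ≤ k := by exact_mod_cast hk
  have h1 := (hasSum_coe_mul_geometric_of_norm_lt_one (r := (1 / 2 : ℝ)) (by norm_num)).mul_left (1 / 2)
  have h2 := hasSum_geometric_two.mul_left (((a : ℝ) + 1) / 2)
  have h3 := h1.add h2
  have hle : ∀ i : ℕ, (#(a + i + 1).divisors : ℝ) / (k : ℝ) ^ (i + 1) ≤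
      1 / 2 * ((i : ℝ) * (1 / 2) ^ i) + ((a : ℝ) + 1) / 2 * (1 / 2) ^ i := by
    intro i
    have h4 : (#(a + i + 1).divisors : ℝ) ≤ a + i + 1 := by
      exact_mod_cast Nat.card_divisors_le_self (a + i + 1)
    calc _ ≤ ((a : ℝ) + i + 1) / 2 ^ (i + 1) := by gcongr
      _ = _ := by rw [one_div_pow]; field_simp; ring
  have hs := Summable.of_nonneg_of_le (fun i => by positivity) hle h3.summable
  refine ⟨hs, (hs.tsum_le_tsum hle h3.summable).trans ?_⟩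
  rw [h3.tsum_eq]
  norm_num
  linarith

/-- the tail after position m. -/
noncomputable def tl (k m : ℕ) : ℝ := ∑' i : ℕ, (#(m + i + 1).divisors : ℝ) / (k : ℝ) ^ (i + 1)

lemma tl_split (k m t : ℕ) (hk : 2 ≤ k) :
    tl k m = ∑ j ∈ Ioc 0 t, (#(m + j).divisors : ℝ) / (k : ℝ) ^ j + tl k (m + t) / (k : ℝ) ^ t := by
  have hk0 : (k : ℝ) ≠ 0 := by positivity
  induction t with
  | zero => simp
  | succ t ih =>
    rw [sum_Ioc_succ_top (by omega), ih, add_assoc]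
    congr 1
    rw [tl, (far k (m + t) hk).1.tsum_eq_zero_add, tl, add_div, ← tsum_div_const, ← tsum_div_const]
    congr 1
    · simp only [add_zero, zero_add, add_assoc]; field_simp; ring
    · refine tsum_congr fun i => ?_
      rw [show m + t + (i + 1) + 1 = m + (t + 1) + i + 1 by ring]
      field_simp
      ring

lemma fract_eq (k m t : ℕ) (hk : 2 ≤ k) (h : ∀ j ∈ Icc 1 t, k ^ t ∣ #(m + j).divisors)
    (h1 : tl k (m + t) / (k : ℝ) ^ t < 1) :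
    Int.fract ((k : ℝ) ^ m * tl k 0) = tl k (m + t) / (k : ℝ) ^ t := by
  have hk0 : (k : ℝ) ≠ 0 := by positivity
  have h0 : 0 ≤ tl k (m + t) := tsum_nonneg fun i => by positivity
  rw [Int.fract_eq_iff]
  refine ⟨by positivity, h1, ((∑ j ∈ Ioc 0 m, #j.divisors * k ^ (m - j) +
    ∑ j ∈ Ioc 0 t, #(m + j).divisors / k ^ j : ℕ) : ℤ), ?_⟩
  rw [tl_split k 0 m hk, zero_add, tl_split k m t hk, mul_add, mul_div_cancel₀ _ (pow_ne_zero _ hk0),
    mul_sum, Int.cast_natCast, Nat.cast_add, Nat.cast_sum, Nat.cast_sum, ← add_assoc,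
    add_sub_cancel_right]
  congr 1
  · refine sum_congr rfl fun j hj => ?_
    obtain ⟨i, rfl⟩ := Nat.exists_eq_add_of_le (mem_Ioc.1 hj).2
    simp only [zero_add, add_tsub_cancel_left]
    push_cast
    field_simp
    ring
  · refine sum_congr rfl fun j hj => ?_
    have hj' := mem_Ioc.1 hj
    rw [Nat.cast_div ((pow_dvd_pow k hj'.2).trans (h j (mem_Icc.2 hj'))) (by positivity)]
    push_cast
    rfl

lemma tl_ge (k m : ℕ) (hk : 2 ≤ k) : 1 / (k : ℝ) ≤ tl k m := by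
  have h0 : 0 ≤ tl k (m + 1) := tsum_nonneg fun i => by positivity
  rw [tl_split k m 1 hk]
  have h1 : (1 : ℝ) ≤ #(m + 1).divisors := by
    exact_mod_cast card_pos.2 ⟨1, Nat.one_mem_divisors.2 (by omega)⟩
  have h2 : 0 ≤ tl k (m + 1) / (k : ℝ) ^ 1 := by positivity
  have h3 : 1 / (k : ℝ) ≤ (#(m + 1).divisors : ℝ) / k := by gcongr
  simp only [Nat.Ioc_succ_singleton, sum_singleton, zero_add, pow_one] at *
  linarith

lemma poly (C : ℕ) : ∃ S, ∀ s ≥ S, C * (s + C) ^ 4 ≤ 2 ^ s := by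
  have h := (isLittleO_pow_const_const_pow_of_one_lt (R := ℝ) 4 (r := 2) (by norm_num)).def
    (c := 1 / (16 * C + 1)) (by positivity)
  obtain ⟨S, hS⟩ := Filter.eventually_atTop.1 h
  refine ⟨S + C, fun s hs => ?_⟩
  have h1 := hS s (by omega)
  rw [Real.norm_of_nonneg (by positivity), Real.norm_of_nonneg (by positivity), one_div,
    inv_mul_eq_div, le_div_iff₀ (by positivity)] at h1
  have h2 : s ^ 4 * (16 * C + 1) ≤ 2 ^ s := by exact_mod_cast h1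
  have h3 : (s + C) ^ 4 ≤ (2 * s) ^ 4 := Nat.pow_le_pow_left (by omega) 4
  nlinarith [Nat.zero_le (s ^ 4)]

lemma main (k m0 t0 : ℕ) (hk : 2 ≤ k) : ∃ H, ∀ h ≥ H, ∃ m t, k ^ (2 * h) * m0 ≤ m ∧
    m + t < k ^ (2 * h) * (m0 + 1) ∧ 1 / (k : ℝ) ^ (t + 1) ≤ Int.fract ((k : ℝ) ^ m * tl k 0) ∧
    Int.fract ((k : ℝ) ^ m * tl k 0) < 1 / (k : ℝ) ^ t0 := by
  have hk' : (2 : ℝ) ≤ k := by exact_mod_cast hk
  have hk0 : (0 : ℝ) < k := by linarith
  obtain ⟨S, hS⟩ := poly (2 * k + m0 + 5 + (t0 + m0 + k + 7))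
  refine ⟨2 ^ S, fun h hh => ?_⟩
  have hh0 : 0 < h := lt_of_lt_of_le (by positivity) hh
  obtain ⟨s, hs1, hs2, hs3⟩ : ∃ s, S ≤ s ∧ 2 ^ s ≤ h ∧ h < 2 ^ (s + 1) :=
    ⟨Nat.log 2 h, Nat.le_log_of_pow_le (by norm_num) hh, Nat.pow_log_le_self 2 hh0.ne',
      Nat.lt_pow_succ_log_self (by norm_num) h⟩
  obtain ⟨t, ht⟩ : ∃ t, t = s + (t0 + m0 + k + 7) := ⟨_, rfl⟩
  obtain ⟨E, hE⟩ : ∃ E, E = (t * t + (s + 3)) * (k * (t * t)) + (m0 + 4) := ⟨_, rfl⟩
  have htt : t ≤ t * t := Nat.le_mul_self t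
  have hE1 : E + 1 ≤ h := by
    have h1 := hS s hs1
    have h2 : t ^ 4 ≤ (s + (2 * k + m0 + 5 + (t0 + m0 + k + 7))) ^ 4 :=
      Nat.pow_le_pow_left (by omega) 4
    have h3 : (t * t + (s + 3)) * (k * (t * t)) ≤ (2 * (t * t)) * (k * (t * t)) :=
      Nat.mul_le_mul_right _ (by omega)
    have h4 : 1 ≤ t ^ 4 := Nat.one_le_pow _ _ (by omega)
    have h5 : (2 * k + m0 + 5) * t ^ 4 ≤ (2 * k + m0 + 5 + (t0 + m0 + k + 7)) *
        (s + (2 * k + m0 + 5 + (t0 + m0 + k + 7))) ^ 4 := Nat.mul_le_mul (by omega) h2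
    have h6 : (2 * (t * t)) * (k * (t * t)) = 2 * k * t ^ 4 := by ring
    have h7 : m0 + 5 ≤ (m0 + 5) * t ^ 4 := Nat.le_mul_of_pos_right _ h4
    have h8 : (2 * k + m0 + 5) * t ^ 4 = 2 * k * t ^ 4 + (m0 + 5) * t ^ 4 := by ring
    omega
  have hE2 : t + m0 + 4 ≤ E := by
    have : (t * t + (s + 3)) * 1 ≤ (t * t + (s + 3)) * (k * (t * t)) :=
      Nat.mul_le_mul_left _ (Nat.succ_le_of_lt (by have : 0 < t := by omega
                                                   positivity))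
    omega
  obtain ⟨Qb, hQb⟩ : ∃ Qb, Qb = (2 ^ (t * t) * (4 * h)) ^ (k * (t * t)) := ⟨_, rfl⟩
  have hkh : 2 ^ h ≤ k ^ h := Nat.pow_le_pow_left hk h
  have hQ : Qb * (m0 + 4) + 8 * h < k ^ h := by
    have h1 : Qb ≤ 2 ^ ((t * t + (s + 3)) * (k * (t * t))) := by
      rw [hQb, pow_mul 2 (t * t + (s + 3)), pow_add]
      refine Nat.pow_le_pow_left (Nat.mul_le_mul_left _ ?_) _
      rw [pow_succ] at hs3
      rw [pow_add]
      omega
    have h2 : Qb * (m0 + 4) ≤ 2 ^ E := by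
      rw [hE, pow_add]
      exact Nat.mul_le_mul h1 Nat.lt_two_pow_self.le
    have h3 : 2 ^ (s + 1 + 3) ≤ 2 ^ E := Nat.pow_le_pow_right (by norm_num) (by omega)
    have h4 : 2 ^ (E + 1) ≤ 2 ^ h := Nat.pow_le_pow_right (by norm_num) hE1
    rw [pow_add] at h3 h4
    omega
  have hK : k ^ (2 * h) = k ^ h * k ^ h := by rw [two_mul, pow_add]
  have hK1 : 1 ≤ k ^ h := Nat.one_le_pow _ _ (by omega)
  have hmain : Qb * (k ^ h * (m0 + 2) + 2) + 8 * h < k ^ (2 * h) := by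
    have h1 : k ^ h * (m0 + 2) + 2 ≤ k ^ h * (m0 + 4) := by nlinarith
    have h2 := Nat.mul_le_mul_left Qb h1
    have h3 := Nat.mul_lt_mul_of_pos_left hQ hK1
    have h4 : 8 * h ≤ k ^ h * (8 * h) := Nat.le_mul_of_pos_left _ hK1
    rw [hK]
    nlinarith
  obtain ⟨m, hm1, hm2, hm3, hm4⟩ := core k (k ^ (2 * h) * m0) t (4 * h) (k ^ h * (m0 + 2)) hk
    (by omega) (by omega) (by positivity) (by
      rw [← hQb, mul_pow, ← pow_mul, mul_comm h 2]
      have : k ^ (2 * h) * (m0 + 1) ≤ k ^ (2 * h) * (m0 + 2) ^ 2 :=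
        Nat.mul_le_mul_left _ (by nlinarith)
      rw [mul_add] at this
      omega)
  rw [← hQb] at hm2
  have hmT : m + 4 * h + 2 ≤ k ^ (2 * h) * (m0 + 1) := by
    rw [mul_add]
    omega
  have hsplit : tl k (m + t) / (k : ℝ) ^ t =
      ∑ j ∈ Ioc t (4 * h), (#(m + j).divisors : ℝ) / (k : ℝ) ^ j +
        tl k (m + 4 * h) / (k : ℝ) ^ (4 * h) := by
    have h1 := tl_split k m t hk
    have h2 := tl_split k m (4 * h) hk
    rw [← sum_Ioc_consecutive _ (Nat.zero_le t) (show t ≤ 4 * h by omega)] at h2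
    linarith
  have hA : 2 * (2 + Real.log (k ^ h * (m0 + 2) : ℕ)) / (k : ℝ) ^ t ≤ 1 / (2 * (k : ℝ) ^ t0) := by
    have h1 : Real.log (k ^ h * (m0 + 2) : ℕ) ≤ h * k + (m0 + 2) := by
      push_cast
      rw [Real.log_mul (by positivity) (by positivity), Real.log_pow]
      have h2 := Real.log_le_self hk0.le
      have h3 := Real.log_le_self (show (0 : ℝ) ≤ m0 + 2 by positivity)
      have h4 : (h : ℝ) * Real.log k ≤ h * k := by gcongr
      linarith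
    have h2 : 4 * (2 + (h * k + (m0 + 2))) ≤ k ^ (s + 1 + (m0 + k + 4 + 2)) := by
      refine le_trans ?_ (Nat.pow_le_pow_left hk _)
      have h3 : m0 + k + 4 < 2 ^ (m0 + k + 4) := Nat.lt_two_pow_self
      have h4 := Nat.mul_le_mul hs3.le h3.le
      rw [pow_add, pow_add _ (m0 + k + 4)]
      nlinarith
    have h3 : (4 * (2 + (h * k + (m0 + 2))) : ℝ) ≤ (k : ℝ) ^ (s + 1 + (m0 + k + 4 + 2)) := by
      exact_mod_cast h2
    rw [div_le_div_iff₀ (by positivity) (by positivity),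
      show t = t0 + (s + 1 + (m0 + k + 4 + 2)) by omega, pow_add]
    have h4 : (0 : ℝ) < (k : ℝ) ^ t0 := by positivity
    nlinarith
  have hB : tl k (m + 4 * h) / (k : ℝ) ^ (4 * h) < 1 / (2 * (k : ℝ) ^ t0) := by
    have h1 : tl k (m + 4 * h) ≤ ((m + 4 * h + 2 : ℕ) : ℝ) := by
      have := (far k (m + 4 * h) hk).2
      push_cast at this ⊢
      exact this
    have h2 : (m + 4 * h + 2) * (2 * k ^ t0) < k ^ (4 * h) := by
      have h3 : k ^ t0 ≤ k ^ h := Nat.pow_le_pow_right (by omega) (by omega)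
      have h4 : m0 + 1 < 2 ^ (m0 + 1) := Nat.lt_two_pow_self
      have h5 : 2 ^ (m0 + 1 + 1) ≤ 2 ^ h := Nat.pow_le_pow_right (by norm_num) (by omega)
      rw [pow_succ] at h5
      have h6 : (m0 + 1) * (2 * k ^ t0) < k ^ h * k ^ h := by nlinarith
      have h7 := Nat.mul_lt_mul_of_pos_left h6 (show 0 < k ^ (2 * h) by positivity)
      have h8 := Nat.mul_le_mul_right (2 * k ^ t0) hmT
      rw [show 4 * h = 2 * h + 2 * h by ring, pow_add] at *
      rw [← hK, ← mul_assoc] at h7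
      omega
    have h3 : ((m + 4 * h + 2 : ℕ) : ℝ) * (2 * (k : ℝ) ^ t0) < (k : ℝ) ^ (4 * h) := by
      exact_mod_cast h2
    rw [div_lt_div_iff₀ (by positivity) (by positivity), one_mul]
    refine lt_of_le_of_lt ?_ h3
    gcongr
  have hlt : tl k (m + t) / (k : ℝ) ^ t < 1 / (k : ℝ) ^ t0 := by
    have : 1 / (k : ℝ) ^ t0 = 1 / (2 * (k : ℝ) ^ t0) + 1 / (2 * (k : ℝ) ^ t0) := by
      field_simp
      norm_num
    linarith
  have h1 : 1 / (k : ℝ) ^ t0 ≤ 1 := by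
    rw [div_le_one (by positivity)]
    exact one_le_pow₀ (by linarith)
  refine ⟨m, t, hm1, by omega, ?_, ?_⟩
  · rw [fract_eq k m t hk hm3 (by linarith), pow_succ', ← div_div]
    gcongr
    exact tl_ge k _ hk
  · rwa [fract_eq k m t hk hm3 (by linarith)]

end Pool.Agent.H.MP_29e051_nt
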